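import Mathlib.Algebra.CharP.Defs
import Mathlib.Algebra.Notation.Lemmas
import Mathlib.Algebra.BigOperators.Field
import Mathlib.Topology.Sheaves.Presheaf
import Mathlib.Tactic.Monotonicity.Lemmas
import Mathlib.Algebra.Order.Ring.Star
import Mathlib.Analysis.Normed.Order.Lattice
import Mathlib.Tactic.Bound
import Mathlib.Algebra.Order.Star.Real
import Mathlib.RingTheory.PiTensorProduct

/-! A verified checker for decision trees that prove a bilinear inequality between two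
polyhedral cones by excluding a minimizer. -/

set_option autoImplicit false

namespace Pool.Agent.MP_20d318_ag.H50

open Finset

/-- a field of width 32 -/
def fld (T i : ℕ) : ℕ := Nat.mod (Nat.shiftRight T (Nat.mul 32 i)) 4294967296

/-- a sum -/
noncomputable def sm (n : ℕ) (f : ℕ → ℕ) : ℕ := Nat.rec 0 (fun k r => Nat.add r (f k)) n

/-- a conjunction -/
noncomputable def al (n : ℕ) (f : ℕ → Bool) : Bool := Nat.rec true (fun k r => and (f k) r) n

/-- packing -/
noncomputable def pk (n : ℕ) (f : ℕ → ℕ) : ℕ := sm n fun i => Nat.mul (f i) (Nat.pow 2 (Nat.mul 32 i))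

theorem sm_eq (n : ℕ) (f : ℕ → ℕ) : sm n f = ∑ i ∈ range n, f i := by
  induction n with
  | zero => rfl
  | succ n ih => rw [sum_range_succ, ← ih]; rfl

theorem al_iff (n : ℕ) (f : ℕ → Bool) : al n f = true ↔ ∀ i < n, f i = true := by
  induction n with
  | zero => simp [al]
  | succ n ih =>
    have : al (n + 1) f = (f n && al n f) := rfl
    rw [this, Bool.and_eq_true, ih, Nat.forall_lt_succ_right, and_comm]

theorem pk_eq (n : ℕ) (f : ℕ → ℕ) : pk n f = ∑ i ∈ range n, f i * 2 ^ (32 * i) := sm_eq _ _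

theorem fld_eq (T i : ℕ) : fld T i = T / 2 ^ (32 * i) % 2 ^ 32 := by
  rw [← Nat.shiftRight_eq_div_pow]; rfl

theorem fld_pk (i : ℕ) : ∀ (n : ℕ) (f : ℕ → ℕ), i < n → (∀ k < n, f k < 2 ^ 32) →
    fld (pk n f) i = f i := by
  induction i with
  | zero =>
    intro n f hi h
    obtain ⟨n, rfl⟩ := Nat.exists_eq_succ_of_ne_zero hi.ne'
    rw [fld_eq, pk_eq, sum_range_succ']
    simp only [mul_add, pow_add, ← mul_assoc, ← sum_mul, mul_zero, pow_zero, mul_one, Nat.div_one]
    rw [Nat.mul_add_mod_self_right, Nat.mod_eq_of_lt (h 0 hi)]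
  | succ i ih =>
    intro n f hi h
    obtain ⟨n, rfl⟩ := Nat.exists_eq_succ_of_ne_zero (Nat.zero_lt_of_lt hi).ne'
    rw [← ih n (fun k => f (k + 1)) (by omega) fun k hk => h _ (by omega), fld_eq, fld_eq, pk_eq,
      pk_eq, sum_range_succ']
    simp only [mul_add, pow_add, ← mul_assoc, ← sum_mul, mul_zero, pow_zero, mul_one]
    rw [mul_comm (2 ^ (32 * i)), ← Nat.div_div_eq_div_mul, add_comm, Nat.add_mul_div_right _ _
      (by positivity), Nat.div_eq_of_lt (h 0 (by omega)), zero_add]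

/-- a packed vector of small entries -/
noncomputable def sml (n T : ℕ) : Bool :=
  and (Nat.beq T (pk n (fld T))) (al n fun i => Nat.blt (fld T i) 8)

theorem fld_sum (m : Multiset ℕ) (x T : ℕ → ℕ) (n i : ℕ) (hi : i < n)
    (hT : ∀ e ∈ m, sml n (T e) = true) (hX : (m.map x).sum < 2 ^ 29) :
    fld (m.map fun e => x e * T e).sum i = (m.map fun e => x e * fld (T e) i).sum := by
  have h1 : (m.map fun e => x e * T e).sum =
      pk n fun i => (m.map fun e => x e * fld (T e) i).sum := by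
    rw [pk_eq]
    simp only [← Multiset.sum_map_mul_right]
    rw [← Multiset.sum_map_sum]
    refine congrArg _ (Multiset.map_congr rfl fun e he => ?_)
    have := hT e he
    simp only [sml, Bool.and_eq_true, Nat.beq_eq, pk_eq] at this
    conv_lhs => rw [this.1]
    simp only [mul_sum, mul_assoc]
  rw [h1, fld_pk _ _ _ hi]
  intro k hk
  calc (m.map fun e => x e * fld (T e) k).sum ≤ (m.map fun e => x e * 8).sum := by
        refine Multiset.sum_map_le_sum_map _ _ fun e he => Nat.mul_le_mul_left _ ?_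
        have := hT e he
        simp only [sml, Bool.and_eq_true, al_iff, Nat.blt_eq] at this
        exact (this.2 k hk).le
    _ < 2 ^ 32 := by rw [Multiset.sum_map_mul_right]; omega

/-- a linear combination of the rows of a table -/
noncomputable def lin (T : ℕ → ℕ) (l : List ℕ) : ℕ :=
  List.rec 0 (fun e _ r => Nat.add (Nat.mul (Nat.div e 256) (T (Nat.mod e 256))) r) l

theorem lin_eq (T : ℕ → ℕ) (l : List ℕ) :
    lin T l = ((l : Multiset ℕ).map fun e => e / 256 * T (e % 256)).sum := by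
  induction l with
  | nil => rfl
  | cons a l ih => rw [← Multiset.cons_coe, Multiset.map_cons, Multiset.sum_cons, ← ih]; rfl

/-- the data of a problem -/
structure Pb where
  np : ℕ
  nv : ℕ
  nJ : ℕ
  ng : ℕ
  G : ℕ → ℕ
  R : ℕ → ℕ
  C : ℕ → ℕ

namespace Pb

variable (P : Pb)

/-- generators -/
def gen (g i : ℕ) : ℕ := fld (P.G g) i
/-- positive parts of the constraints -/
def cP (j i : ℕ) : ℕ := fld (P.R (Nat.mul 2 j)) i
/-- negative parts of the constraints -/
def cN (j i : ℕ) : ℕ := fld (P.R (Nat.mul 2 j)) (Nat.add P.nv i)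

/-- the pairing -/
noncomputable def ip (d z : ℕ → ℝ) : ℝ := ∑ i ∈ range P.nv, d i * z i

/-- the value of a constraint -/
noncomputable def con (j : ℕ) (z : ℕ → ℝ) : ℝ := P.ip (fun i => (P.cP j i : ℝ) - P.cN j i) z

/-- feasible points -/
def Feas (z : ℕ → ℝ) : Prop := ∀ j < P.nJ, 0 ≤ P.con j z

/-- admissible functionals -/
def Adm (ψ : ℕ → ℝ) : Prop :=
  (∀ i < P.np, ψ i ≤ 0) ∧ ∀ g < P.ng, 0 ≤ P.ip (fun i => P.gen g i) ψ

/-- directions of descent -/
def Dir (z d : ℕ → ℝ) : Prop :=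
  (∀ ψ, P.Adm ψ → 0 ≤ P.ip d ψ) ∧ 0 < ∑ i ∈ range P.nv, d i ∧
    ∀ j < P.nJ, P.con j z = 0 → P.con j d ≤ 0

/-- candidates for a minimizer -/
def Stuck (z : ℕ → ℝ) : Prop := P.Feas z ∧ (∀ i < P.nv, 0 ≤ z i) ∧ ¬∃ d, P.Dir z d

/-- no candidate with given tight and strict constraints -/
def NoSt (E N : ℕ) : Prop :=
  ∀ z, P.Stuck z → (∀ j < P.nJ, E.testBit j = true → P.con j z = 0) →
    (∀ j < P.nJ, N.testBit j = true → 0 < P.con j z) → False

/-- a symmetry -/
def Sym (ρ : ℕ → ℕ) : Prop :=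
  ∀ z, P.Stuck z → ∃ y, P.Stuck y ∧ ∀ j < P.nJ, ρ j < P.nJ ∧ P.con j y = P.con (ρ j) z

/-- consistency of the tables -/
noncomputable def wf : Bool :=
  Nat.ble P.np P.nJ && Nat.ble P.np P.nv && Nat.ble P.nv 64 &&
  al P.ng (fun g => sml P.nv (P.G g)) &&
  al (2 * P.nJ) (fun r => sml (2 * P.nv) (P.R r)) &&
  al P.nv (fun i => sml (2 * P.nJ + 1) (P.C i) && Nat.beq (fld (P.C i) P.nJ) 1) &&
  al P.nJ (fun j => al P.nv fun i =>
    Nat.beq (fld (P.R (2 * j + 1)) i) (P.cN j i) &&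
    Nat.beq (fld (P.R (2 * j + 1)) (P.nv + i)) (P.cP j i) &&
    Nat.beq (fld (P.C i) j) (P.cP j i) && Nat.beq (fld (P.C i) (P.nJ + 1 + j)) (P.cN j i)) &&
  al P.np (fun j => al P.nv fun i =>
    Nat.beq (P.cP j i) (cond (Nat.beq i j) 1 0) && Nat.beq (P.cN j i) 0)

/-- the truncated direction -/
def dK (N T i : ℕ) : ℕ := cond (and (Nat.blt i P.np) (not (N.testBit i))) 0 (fld T i)

/-- a product -/
noncomputable def mz (a b : ℕ) : ℕ := cond (Nat.beq a 0) 0 (Nat.mul a b)

/-- the second half of the check of a direction -/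
noncomputable def cmpK (N A : ℕ) : Bool :=
  and (Nat.blt 0 (fld A P.nJ)) (al P.nJ fun j =>
    or (N.testBit j) (Nat.ble (fld A j) (fld A (Nat.add (Nat.succ P.nJ) j))))

/-- check of a direction -/
noncomputable def chkK (N : ℕ) (l : List ℕ) : Bool :=
  and (and (l.all fun e => Nat.blt (Nat.mod e 256) P.ng) (Nat.blt (lin (fun _ => 1) l) 1048576))
    (P.cmpK N (sm P.nv fun i => mz (P.dK N (lin P.G l) i) (P.C i)))

/-- the second half of the check of a Farkas certificate -/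
noncomputable def cmpF (E A : ℕ) : Bool :=
  al P.nv fun i => or (and (Nat.blt i P.np) (E.testBit i))
    (Nat.ble (fld A i) (fld A (Nat.add P.nv i)))

/-- check of a Farkas certificate -/
noncomputable def chkF (E N : ℕ) (l : List ℕ) : Bool :=
  and (and (and (l.all fun e => and (Nat.blt (Nat.div (Nat.mod e 256) 2) P.nJ)
      (or (Nat.beq (Nat.mod (Nat.mod e 256) 2) 0) (E.testBit (Nat.div (Nat.mod e 256) 2))))
    (Nat.blt (lin (fun _ => 1) l) 1048576))
    (l.any fun e => and (and (Nat.beq (Nat.mod (Nat.mod e 256) 2) 0) (Nat.blt 0 (Nat.div e 256)))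
      (N.testBit (Nat.div (Nat.mod e 256) 2))))
    (P.cmpF E (lin P.R l))

variable {P}

theorem con_pt (h : P.wf = true) {j : ℕ} (hj : j < P.np) (z : ℕ → ℝ) : P.con j z = z j := by
  simp only [wf, Bool.and_eq_true, al_iff, Nat.ble_eq, Nat.beq_eq] at h
  rw [con, ip, sum_eq_single j]
  · rw [(h.2 j hj j (by omega)).1, (h.2 j hj j (by omega)).2]; simp
  · intro i hi hij
    rw [(h.2 j hj i (mem_range.1 hi)).1, (h.2 j hj i (mem_range.1 hi)).2,
      Bool.eq_false_iff.2 (mt Nat.eq_of_beq_eq_true hij)]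
    simp
  · intro hn; exact absurd (mem_range.2 (by omega)) hn

theorem ip_comb (m : Multiset ℕ) (x : ℕ → ℝ) (a : ℕ → ℕ → ℝ) (z : ℕ → ℝ) :
    P.ip (fun i => (m.map fun e => x e * a e i).sum) z = (m.map fun e => x e * P.ip (a e) z).sum := by
  simp only [ip, ← Multiset.sum_map_mul_right, mul_sum, mul_assoc]
  rw [Multiset.sum_map_sum]

theorem chkK_sound (h : P.wf = true) {E N : ℕ} {l : List ℕ} (hc : P.chkK N l = true) :
    P.NoSt E N := by
  intro z hz _ hN
  have h0 := h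
  simp only [wf, Bool.and_eq_true, al_iff, Nat.ble_eq, Nat.beq_eq] at h
  obtain ⟨⟨⟨⟨⟨⟨⟨h1, h2⟩, h3⟩, h4⟩, -⟩, h6⟩, h7⟩, -⟩ := h
  simp only [chkK, cmpK, Bool.and_eq_true, al_iff, List.all_eq_true, Nat.blt_eq, Bool.or_eq_true,
    Nat.ble_eq, sm_eq, lin_eq, mul_one] at hc
  obtain ⟨⟨c1, c2⟩, c3, c4⟩ := hc
  set T := ((l : Multiset ℕ).map fun e => e / 256 * P.G (e % 256)).sum with hT
  have hT1 : ∀ i < P.nv, fld T i = ((l : Multiset ℕ).map fun e => e / 256 * P.gen (e % 256) i).sum :=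
    fun i hi => fld_sum l (fun e => e / 256) (fun e => P.G (e % 256)) _ i hi
      (fun e he => h4 _ (c1 e he)) (by omega)
  have hT2 : ∀ i < P.nv, P.dK N T i ≤ 2 ^ 23 - 1 := by
    intro i hi
    have : fld T i ≤ ((l : Multiset ℕ).map fun e => e / 256 * 8).sum := by
      rw [hT1 i hi]
      refine Multiset.sum_map_le_sum_map _ _ fun e he => Nat.mul_le_mul_left _ ?_
      have := h4 _ (c1 e he)
      simp only [sml, Bool.and_eq_true, al_iff, Nat.blt_eq] at this
      exact (this.2 i hi).le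
    rw [Multiset.sum_map_mul_right] at this
    unfold dK
    cases (Nat.blt i P.np && !N.testBit i) <;> simp only [cond] <;> omega
  have hmz : ∀ a b, mz a b = a * b := fun a b => by
    cases a <;> simp [mz, Nat.beq]
  simp only [hmz] at c3 c4
  have hA : ∀ j < 2 * P.nJ + 1, fld (∑ i ∈ range P.nv, P.dK N T i * P.C i) j =
      ∑ i ∈ range P.nv, P.dK N T i * fld (P.C i) j := fun j hj =>
    fld_sum (range P.nv).1 _ _ _ j hj (fun i hi => (h6 i (mem_range.1 hi)).1) (by
      have : ∑ i ∈ range P.nv, P.dK N T i ≤ _ :=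
        sum_le_card_nsmul _ _ _ fun i hi => hT2 i (mem_range.1 hi)
      rw [card_range, smul_eq_mul] at this
      change ∑ i ∈ range P.nv, P.dK N T i < _
      omega)
  refine hz.2.2 ⟨fun i => P.dK N T i, fun ψ hψ => ?_, ?_, fun j hj hj0 => ?_⟩
  · calc (0 : ℝ) ≤ ((l : Multiset ℕ).map fun e =>
          ((e / 256 : ℕ) : ℝ) * P.ip (fun i => P.gen (e % 256) i) ψ).sum :=
          Multiset.sum_nonneg fun a ha => by
            obtain ⟨e, he, rfl⟩ := Multiset.mem_map.1 ha
            exact mul_nonneg (Nat.cast_nonneg _) (hψ.2 _ (c1 e he))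
      _ = P.ip (fun i => fld T i) ψ := by
          rw [← ip_comb]
          refine sum_congr rfl fun i hi => ?_
          simp only [hT1 i (mem_range.1 hi), Nat.cast_multiset_sum, Multiset.map_map,
            Function.comp, Nat.cast_mul]
      _ ≤ _ := by
          refine sum_le_sum fun i _ => ?_
          simp only [dK]
          cases hb : (Nat.blt i P.np && !N.testBit i)
          · exact le_rfl
          · simp only [Bool.and_eq_true, Nat.blt_eq] at hb
            simpa using mul_nonpos_of_nonneg_of_nonpos (Nat.cast_nonneg _) (hψ.1 i hb.1)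
  · rw [hA _ (by omega)] at c3
    rw [← Nat.cast_sum, Nat.cast_pos]
    rwa [sum_congr rfl fun i hi => by rw [(h6 i (mem_range.1 hi)).2, mul_one]] at c3
  · rcases c4 j hj with c | c
    · exact absurd hj0 (hN j hj c).ne'
    · change _ ≤ fld _ (P.nJ + 1 + j) at c
      rw [hA _ (by omega), hA _ (by omega),
        sum_congr rfl fun i hi => congrArg (P.dK N T i * ·) (h7 j hj i (mem_range.1 hi)).1.2,
        sum_congr rfl fun i hi => congrArg (P.dK N T i * ·) (h7 j hj i (mem_range.1 hi)).2] at c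
      have c' := (Nat.cast_le (α := ℝ)).2 c
      simp only [con, ip, sub_mul, sum_sub_distrib, sub_nonpos]
      simpa only [Nat.cast_sum, Nat.cast_mul, mul_comm] using c'

theorem chkF_sound (h : P.wf = true) {E N : ℕ} {l : List ℕ} (hc : P.chkF E N l = true) :
    P.NoSt E N := by
  intro z hz hE hN
  have h0 := h
  simp only [wf, Bool.and_eq_true, al_iff, Nat.ble_eq, Nat.beq_eq] at h
  obtain ⟨⟨⟨⟨⟨⟨⟨h1, h2⟩, h3⟩, -⟩, h5⟩, -⟩, h7⟩, -⟩ := h
  simp only [chkF, cmpF, Bool.and_eq_true, al_iff, List.all_eq_true, Nat.blt_eq, Bool.or_eq_true,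
    Nat.ble_eq, lin_eq, mul_one, List.any_eq_true, Nat.beq_eq] at hc
  obtain ⟨⟨⟨c1, c2⟩, e0, he0, ⟨c3, c4⟩, c5⟩, c6⟩ := hc
  change ∀ e ∈ l, e % 256 / 2 < P.nJ ∧ (e % 256 % 2 = 0 ∨ E.testBit (e % 256 / 2) = true) at c1
  change e0 % 256 % 2 = 0 at c3
  set A := ((l : Multiset ℕ).map fun e => e / 256 * P.R (e % 256)).sum with hA
  have hA1 : ∀ i < 2 * P.nv, fld A i =
      ((l : Multiset ℕ).map fun e => e / 256 * fld (P.R (e % 256)) i).sum :=
    fun i hi => fld_sum l (fun e => e / 256) (fun e => P.R (e % 256)) _ i hi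
      (fun e he => h5 _ (by have := (c1 e he).1; omega)) (by omega)
  set v : ℕ → ℝ := fun r => P.ip (fun i => (fld (P.R r) i : ℝ) - fld (P.R r) (P.nv + i)) z with hv
  have v0 : ∀ r, r % 2 = 0 → v r = P.con (r / 2) z := by
    intro r hr
    obtain ⟨j, rfl⟩ := Nat.dvd_of_mod_eq_zero hr
    rw [Nat.mul_div_cancel_left _ two_pos]; rfl
  have v1 : ∀ e ∈ l, 0 ≤ v (e % 256) := by
    intro e he
    obtain ⟨a, b⟩ := c1 e he
    by_cases hr : e % 256 % 2 = 0
    · rw [v0 _ hr]; exact hz.1 _ a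
    · have h8 := hE _ a (b.resolve_left hr)
      have h9 : e % 256 = 2 * (e % 256 / 2) + 1 := by omega
      rw [h9]
      generalize e % 256 / 2 = j at a h8
      have : v (2 * j + 1) = -P.con j z := by
        simp only [hv, con, ip, ← sum_neg_distrib]
        refine sum_congr rfl fun i hi => ?_
        rw [(h7 j a i (mem_range.1 hi)).1.1.1, (h7 j a i (mem_range.1 hi)).1.1.2]; ring
      rw [this, h8, neg_zero]
  have k1 : 0 < ((l : Multiset ℕ).map fun e => ((e / 256 : ℕ) : ℝ) * v (e % 256)).sum := by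
    refine lt_of_lt_of_le ?_ (Multiset.single_le_sum (fun a ha => ?_) _
      (Multiset.mem_map.2 ⟨e0, he0, rfl⟩))
    · refine mul_pos (Nat.cast_pos.2 c4) ?_
      rw [v0 _ c3]; exact hN _ (c1 e0 he0).1 c5
    · obtain ⟨e, he, rfl⟩ := Multiset.mem_map.1 ha
      exact mul_nonneg (Nat.cast_nonneg _) (v1 e he)
  rw [hv, ← ip_comb] at k1
  refine k1.not_ge (sum_nonpos fun i hi => ?_)
  have hi' := mem_range.1 hi
  rcases c6 i hi' with c | c
  · rw [← con_pt h0 c.1 z, hE i (by omega) c.2, mul_zero]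
  · refine mul_nonpos_of_nonpos_of_nonneg ?_ (hz.2.1 i hi')
    change _ ≤ fld _ (P.nv + i) at c
    rw [hA1 _ (by omega), hA1 _ (by omega)] at c
    have c' := (Nat.cast_le (α := ℝ)).2 c
    simp only [mul_sub, Multiset.sum_map_sub, sub_nonpos]
    simpa only [Nat.cast_multiset_sum, Multiset.map_map, Function.comp, Nat.cast_mul] using c'

/-- a byte -/
def fb (T i : ℕ) : ℕ := Nat.mod (Nat.shiftRight T (Nat.mul 8 i)) 256

/-- check of a symmetry -/
noncomputable def symB (P : Pb) (p q r s t : ℕ) : Bool :=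
  al P.nv (fun i => Nat.blt (fb p i) P.nv && Nat.blt (fb q i) P.nv && Nat.beq (fb p (fb q i)) i &&
    Nat.beq (fb q (fb p i)) i && (Nat.ble P.np i || Nat.blt (fb p i) P.np)) && Nat.ble P.np P.nv &&
  al P.nJ (fun j => Nat.blt (fb r j) P.nJ && Nat.blt (fb s j) P.nJ && Nat.beq (fb r (fb s j)) j &&
    al P.nv fun i => Nat.beq (P.cP (fb r j) (fb p i)) (P.cP j i) &&
      Nat.beq (P.cN (fb r j) (fb p i)) (P.cN j i)) &&
  al P.ng fun g => Nat.blt (fb t g) P.ng &&
    al P.nv fun i => Nat.beq (P.gen (fb t g) (fb p i)) (P.gen g i)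

theorem symB_sound {p q r s t : ℕ} (h : P.symB p q r s t = true) : P.Sym (fb r) := by
  simp only [symB, Bool.and_eq_true, al_iff, Nat.ble_eq, Nat.beq_eq, Nat.blt_eq,
    Bool.or_eq_true] at h
  obtain ⟨⟨⟨h1, h0⟩, h2⟩, h3⟩ := h
  have hs : ∀ F : ℕ → ℝ, ∑ i ∈ range P.nv, F (fb p i) = ∑ i ∈ range P.nv, F i := fun F =>
    sum_nbij' (fb p) (fb q) (fun i hi => mem_range.2 (h1 i (mem_range.1 hi)).1.1.1.1)
      (fun i hi => mem_range.2 (h1 i (mem_range.1 hi)).1.1.1.2)
      (fun i hi => (h1 i (mem_range.1 hi)).1.2) (fun i hi => (h1 i (mem_range.1 hi)).1.1.2)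
      fun _ _ => rfl
  have hc : ∀ z y : ℕ → ℝ, (∀ i < P.nv, y i = z (fb p i)) → ∀ j < P.nJ,
      P.con j y = P.con (fb r j) z := by
    intro z y hy j hj
    simp only [con, ip]
    rw [← hs fun i => ((P.cP (fb r j) i : ℝ) - P.cN (fb r j) i) * z i]
    refine sum_congr rfl fun i hi => ?_
    rw [((h2 j hj).2 i (mem_range.1 hi)).1, ((h2 j hj).2 i (mem_range.1 hi)).2,
      hy i (mem_range.1 hi)]
  intro z hz
  have hcz := hc z (fun i => z (fb p i)) fun _ _ => rfl
  refine ⟨fun i => z (fb p i), ⟨fun j hj => ?_, fun i hi => hz.2.1 _ (h1 i hi).1.1.1.1, ?_⟩,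
    fun j hj => ⟨(h2 j hj).1.1.1, hcz j hj⟩⟩
  · rw [hcz j hj]; exact hz.1 _ (h2 j hj).1.1.1
  · rintro ⟨d, d1, d2, d3⟩
    have hd : ∀ i < P.nv, d i = d (fb q (fb p i)) := fun i hi => by rw [(h1 i hi).1.2]
    refine hz.2.2 ⟨fun i => d (fb q i), fun ψ hψ => ?_, ?_, fun j hj hj0 => ?_⟩
    · have := d1 (fun i => ψ (fb p i)) ⟨fun i hi => ?_, fun g hg => ?_⟩
      · rw [ip, ← hs]
        rwa [ip, sum_congr rfl fun i hi => by rw [hd i (mem_range.1 hi)]] at this
      · exact hψ.1 _ ((h1 i (by omega)).2.resolve_left hi.not_ge)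
      · have := hψ.2 _ (h3 g hg).1
        rw [ip, ← hs] at this
        rwa [ip, sum_congr rfl fun i hi => by rw [← (h3 g hg).2 i (mem_range.1 hi)]]
    · rw [← hs]
      rwa [sum_congr rfl fun i hi => hd i (mem_range.1 hi)] at d2
    · obtain ⟨⟨⟨-, a⟩, b⟩, -⟩ := h2 j hj
      rw [← b, ← hc _ d hd _ a]
      exact d3 _ a (by rw [hcz _ a, b, hj0])

/-- a word in four symmetries -/
noncomputable def app (Γ : ℕ → ℕ) (f : ℕ) : ℕ → ℕ → ℕ :=
  Nat.rec (fun _ j => j) (fun _ ih w j =>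
    cond (Nat.ble w 1) j (fb (Γ (Nat.mod w 4)) (ih (Nat.div w 4) j))) f

theorem sym_app {Γ : ℕ → ℕ} (h : ∀ a < 4, P.Sym (fb (Γ a))) (f : ℕ) : ∀ w, P.Sym (app Γ f w) := by
  have h0 : P.Sym fun j => j := fun z hz => ⟨z, hz, fun _ hj => ⟨hj, rfl⟩⟩
  induction f with
  | zero => exact fun _ => h0
  | succ f ih =>
    intro w
    change P.Sym fun j => cond (Nat.ble w 1) j (fb (Γ (w % 4)) (app Γ f (w / 4) j))
    cases Nat.ble w 1
    · intro z hz
      obtain ⟨y, hy, e⟩ := h _ (Nat.mod_lt w four_pos) z hz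
      obtain ⟨x, hx, e'⟩ := ih (w / 4) y hy
      exact ⟨x, hx, fun j hj => ⟨(e _ (e' j hj).1).1, (e' j hj).2.trans (e _ (e' j hj).1).2⟩⟩
    · exact h0

/-- inclusion of the image of a state -/
noncomputable def sub (P : Pb) (ρ : ℕ → ℕ) (E N E' N' : ℕ) : Bool :=
  al P.nJ fun j => and (cond (E.testBit j) (E'.testBit (ρ j)) true)
    (cond (N.testBit j) (N'.testBit (ρ j)) true)

theorem sub_sound {ρ : ℕ → ℕ} {E N E' N' : ℕ} (h : P.Sym ρ) (h1 : P.NoSt E N)
    (h2 : P.sub ρ E N E' N' = true) : P.NoSt E' N' := by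
  simp only [sub, al_iff, Bool.and_eq_true] at h2
  intro z hz hE hN
  obtain ⟨y, hy, e⟩ := h z hz
  refine h1 y hy (fun j hj hb => ?_) fun j hj hb => ?_
  · rw [(e j hj).2]; exact hE _ (e j hj).1 (by simpa [hb] using (h2 j hj).1)
  · rw [(e j hj).2]; exact hN _ (e j hj).1 (by simpa [hb] using (h2 j hj).2)

end Pb

/-- decision trees -/
inductive Tr
  | K (c : ℕ)
  | F (c : ℕ)
  | S (q w : ℕ)
  | B (j : ℕ) (a b : Tr)

/-- tables -/
inductive BT
  | l (c : ℕ)
  | n (a b : BT)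

/-- lookup -/
noncomputable def BT.get (t : BT) : ℕ → ℕ :=
  BT.rec (fun c _ => c) (fun _ _ a b k =>
    cond (Nat.beq (Nat.mod k 2) 0) (a (Nat.div k 2)) (b (Nat.div k 2))) t

/-- unpacking of a certificate -/
noncomputable def dec (f : ℕ) : ℕ → List ℕ :=
  Nat.rec (fun _ => []) (fun _ ih c =>
    cond (Nat.beq c 0) [] (Nat.mod c 1048576 :: ih (Nat.div c 1048576))) f

/-- the tight constraints of a state -/
def stE (c : ℕ) : ℕ := Nat.mod c (Nat.pow 2 128)
/-- the strict constraints of a state -/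
def stN (c : ℕ) : ℕ := Nat.shiftRight c 128

namespace Pb

variable {P : Pb}

/-- check of a tree -/
noncomputable def chk (P : Pb) (Γ St : ℕ → ℕ) (q : ℕ) (t : Tr) : ℕ → ℕ → Bool :=
  Tr.rec (fun c _ N => P.chkK N (dec 64 c)) (fun c E N => P.chkF E N (dec 64 c))
    (fun r w E N => and (Nat.blt r q) (P.sub (app Γ 32 w) (stE (St r)) (stN (St r)) E N))
    (fun j _ _ a b E N => and (and (Nat.blt j P.nJ) (a E (Nat.lor N (Nat.pow 2 j))))
      (b (Nat.lor E (Nat.pow 2 j)) N)) t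

theorem chk_sound (h : P.wf = true) {Γ St : ℕ → ℕ} (hΓ : ∀ a < 4, P.Sym (fb (Γ a))) {q : ℕ}
    (hq : ∀ r < q, P.NoSt (stE (St r)) (stN (St r))) (t : Tr) :
    ∀ E N, P.chk Γ St q t E N = true → P.NoSt E N := by
  induction t with
  | K c => exact fun E N hc => chkK_sound h hc
  | F c => exact fun E N hc => chkF_sound h hc
  | S r w =>
    intro E N hc
    simp only [chk, Bool.and_eq_true, Nat.blt_eq] at hc
    exact sub_sound (sym_app hΓ 32 w) (hq r hc.1) hc.2
  | B j a b iha ihb =>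
    intro E N hc z hz hE hN
    change (Nat.blt j P.nJ && P.chk Γ St q a E (N ||| 2 ^ j) &&
      P.chk Γ St q b (E ||| 2 ^ j) N) = true at hc
    simp only [Bool.and_eq_true, Nat.blt_eq] at hc
    rcases (hz.1 j hc.1.1).eq_or_lt with e | e
    · refine ihb _ _ hc.2 z hz (fun i hi hb => ?_) hN
      rw [Nat.testBit_or, Nat.testBit_two_pow, Bool.or_eq_true, decide_eq_true_eq] at hb
      rcases hb with hb | rfl
      · exact hE i hi hb
      · exact e.symm
    · refine iha _ _ hc.1.2 z hz hE fun i hi hb => ?_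
      rw [Nat.testBit_or, Nat.testBit_two_pow, Bool.or_eq_true, decide_eq_true_eq] at hb
      rcases hb with hb | rfl
      · exact hN i hi hb
      · exact e

/-- check of a list of trees -/
noncomputable def chkL (P : Pb) (Γ St : ℕ → ℕ) (q' : ℕ) (ts : List Tr) : ℕ → Bool :=
  List.rec (fun q => Nat.beq q q') (fun t _ ih q =>
    and (P.chk Γ St q t (stE (St q)) (stN (St q))) (ih (Nat.succ q))) ts

theorem chkL_sound (h : P.wf = true) {Γ St : ℕ → ℕ} (hΓ : ∀ a < 4, P.Sym (fb (Γ a))) {q' : ℕ}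
    {ts : List Tr} : ∀ {q}, P.chkL Γ St q' ts q = true →
    (∀ r < q, P.NoSt (stE (St r)) (stN (St r))) → ∀ r < q', P.NoSt (stE (St r)) (stN (St r)) := by
  induction ts with
  | nil => intro q hc hq; exact Nat.eq_of_beq_eq_true hc ▸ hq
  | cons t ts ih =>
    intro q hc hq
    change (P.chk Γ St q t _ _ && P.chkL Γ St q' ts (q + 1)) = true at hc
    rw [Bool.and_eq_true] at hc
    exact ih hc.2 (Nat.forall_lt_succ_right.2 ⟨hq, chk_sound h hΓ hq t _ _ hc.1⟩)

theorem ip_sub (a z d : ℕ → ℝ) (ε : ℝ) :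
    P.ip a (fun i => z i - ε * d i) = P.ip a z - ε * P.ip a d := by
  simp only [ip, mul_sub, sum_sub_distrib, mul_sum, mul_left_comm]

theorem ip_comm (a z : ℕ → ℝ) : P.ip a z = P.ip z a := by simp only [ip, mul_comm]

open Filter Topology in
/-- if no point is a candidate, the functional is nonnegative -/
theorem main (hpos : ∀ z, P.Feas z → ∀ i < P.nv, 0 ≤ z i) {ψ : ℕ → ℝ} (hψ : P.Adm ψ)
    (hno : ∀ z, P.Stuck z → 0 ≤ P.ip ψ z) {z0 : ℕ → ℝ} (h0 : P.Feas z0) : 0 ≤ P.ip ψ z0 := by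
  by_contra hn
  push Not at hn
  set S : Set (ℕ → ℝ) := {z | z ∈ Set.Icc 0 1 ∧ P.Feas z ∧ P.ip 1 z = 1} with hS
  have hct : ∀ a, Continuous (P.ip a) := fun a => by unfold ip; fun_prop
  have hcS : IsCompact S := by
    refine isCompact_Icc.inter_right (t := {z | P.Feas z ∧ P.ip 1 z = 1}) (IsClosed.inter ?_
      (isClosed_eq (hct _) continuous_const))
    change IsClosed {z | ∀ j < P.nJ, 0 ≤ P.con j z}
    simp only [Set.ofPred_forall]
    exact isClosed_iInter fun j => isClosed_iInter fun _ => isClosed_le continuous_const (hct _)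
  have key : ∀ y, P.Feas y → 0 < P.ip 1 y → ∃ x ∈ S, P.ip ψ x * P.ip 1 y = P.ip ψ y := by
    intro y hy hs
    have e : ∀ a, P.ip a (fun i => if i < P.nv then y i / P.ip 1 y else 0) =
        P.ip a y / P.ip 1 y := fun a => by
      conv_rhs => rw [ip, sum_div]
      exact sum_congr rfl fun i hi => by simp only [mem_range.1 hi, if_true, mul_div_assoc]
    refine ⟨fun i => if i < P.nv then y i / P.ip 1 y else 0, ⟨⟨fun i => ?_, fun i => ?_⟩,
      fun j hj => ?_, ?_⟩, ?_⟩
    · by_cases hi : i < P.nv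
      · simp only [hi, if_true]; exact div_nonneg (hpos y hy i hi) hs.le
      · simp [hi]
    · by_cases hi : i < P.nv
      · simp only [hi, if_true, Pi.one_apply, div_le_one hs]
        simp only [ip, Pi.one_apply, one_mul]
        exact single_le_sum (fun k hk => hpos y hy k (mem_range.1 hk)) (mem_range.2 hi)
      · simp [hi]
    · rw [con, e]; exact div_nonneg (hy j hj) hs.le
    · rw [e, div_self hs.ne']
    · rw [e, div_mul_cancel₀ _ hs.ne']
  have hs0 : 0 < P.ip 1 z0 := by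
    by_contra hc
    simp only [ip, Pi.one_apply, one_mul, not_lt] at hc
    have hp := fun k hk => hpos z0 h0 k (mem_range.1 hk)
    have := (sum_eq_zero_iff_of_nonneg hp).1 (hc.antisymm (sum_nonneg hp))
    rw [ip, sum_eq_zero fun i hi => by rw [this i hi, mul_zero]] at hn
    exact hn.false
  obtain ⟨x0, hx0, e0⟩ := key z0 h0 hs0
  obtain ⟨z, hz, hmin⟩ := hcS.exists_isMinOn ⟨x0, hx0⟩ (hct ψ).continuousOn
  have hz0 : P.ip ψ z < 0 := lt_of_le_of_lt (hmin hx0) (by
    by_contra hc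
    exact hn.not_ge (e0 ▸ mul_nonneg (not_lt.1 hc) hs0.le))
  refine hz0.not_ge (hno z ⟨hz.2.1, hpos z hz.2.1, ?_⟩)
  rintro ⟨d, d1, d2, d3⟩
  have ev : ∀ a b : ℝ, 0 < a → ∀ᶠ ε in 𝓝[>] (0 : ℝ), ε * b < a := fun a b ha =>
    nhdsWithin_le_nhds ((by fun_prop : Continuous fun ε : ℝ => ε * b).continuousAt.eventually_lt
      continuousAt_const (by simpa using ha))
  have e1 : ∀ᶠ ε in 𝓝[>] (0 : ℝ), ∀ j ∈ range P.nJ, ε * P.con j d ≤ P.con j z := by
    refine (eventually_all_finset _).2 fun j hj => ?_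
    rcases (hz.2.1 j (mem_range.1 hj)).eq_or_lt with e | e
    · filter_upwards [self_mem_nhdsWithin] with ε hε
      exact e ▸ mul_nonpos_of_nonneg_of_nonpos (le_of_lt hε) (d3 j (mem_range.1 hj) e.symm)
    · exact (ev _ _ e).mono fun _ => le_of_lt
  obtain ⟨ε, ⟨h1, h2⟩, h3⟩ := ((e1.and (ev 1 (P.ip 1 d) one_pos)).and self_mem_nhdsWithin).exists
  have h3' : 0 < ε := h3
  have d2' : 0 < P.ip 1 d := by simpa only [ip, Pi.one_apply, one_mul] using d2
  obtain ⟨x, hx, e⟩ := key (fun i => z i - ε * d i) (fun j hj => by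
    rw [con, ip_sub]; exact sub_nonneg.2 (h1 j (mem_range.2 hj))) (by
    rw [ip_sub, hz.2.2]; linarith)
  rw [ip_sub, ip_sub, hz.2.2] at e
  have h4 : P.ip ψ z ≤ P.ip ψ x := hmin hx
  have h5 := mul_nonneg h3'.le (ip_comm d ψ ▸ d1 ψ hψ)
  have h6 := mul_pos h3' d2'
  nlinarith

end Pb

end Pool.Agent.MP_20d318_ag.H50
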