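import Pool.Agent.MP_20d318_ag.h50.TA
import Pool.Agent.MP_20d318_ag.h50.TB
import Pool.Agent.MP_20d318_ag.h50.TC
import Pool.Agent.MP_20d318_ag.Lat.StarH

/-! The inequality between nef divisors and movable curves on the three Voronoi cones. -/

set_option autoImplicit false

namespace Pool.Agent.MP_20d318_ag.H50

open Finset Matrix Pool.Agent.MP_20d318_ag.Lat

/-- the shape of the total mass and of the plane constraints -/
noncomputable def Pb.aux (P : Pb) (μ : ℕ) : Bool :=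
  Nat.blt μ P.nJ &&
  al P.nv (fun i => Nat.beq (P.cP μ i) (cond (Nat.blt i P.np) 1 0) && Nat.beq (P.cN μ i) 0) &&
  al P.nv fun i => Nat.blt i P.np || (Nat.blt (P.np + 3 * (i - P.np)) P.nJ && al P.nv fun a =>
    Nat.beq (P.cP (P.np + 3 * (i - P.np)) a) (cond (Nat.beq a i) 1 0) &&
    (Nat.blt a P.np || Nat.beq (P.cN (P.np + 3 * (i - P.np)) a) 0))

theorem Pb.main2 {P : Pb} (h : P.wf = true) {μ : ℕ} (ha : P.aux μ = true)
    (hno : P.NoSt 0 (2 ^ μ)) {ψ : ℕ → ℝ} (hψ : P.Adm ψ) (h2 : ∀ i, P.np ≤ i → 0 ≤ ψ i)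
    {z : ℕ → ℝ} (hz : P.Feas z) : 0 ≤ P.ip ψ z := by
  simp only [Pb.aux, Bool.and_eq_true, al_iff, Nat.beq_eq, Nat.blt_eq, Bool.or_eq_true] at ha
  obtain ⟨⟨a1, a2⟩, a3⟩ := ha
  have hJ : P.np ≤ P.nJ := by
    simp only [Pb.wf, Bool.and_eq_true, Nat.ble_eq] at h
    exact h.1.1.1.1.1.1.1
  refine Pb.main (fun y hy i hi => ?_) hψ (fun y hy => ?_) hz
  · have hp : ∀ a < P.np, 0 ≤ y a := fun a ha => Pb.con_pt h ha y ▸ hy a (by omega)
    rcases a3 i hi with c | ⟨c1, c2⟩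
    · exact hp i c
    · refine (hy _ c1).trans ?_
      generalize P.np + 3 * (i - P.np) = j at c1 c2
      calc P.con j y ≤ ∑ a ∈ range P.nv, if a = i then y a else 0 := by
            unfold Pb.con Pb.ip
            refine sum_le_sum fun a ha => ?_
            obtain ⟨d1, d2⟩ := c2 a (mem_range.1 ha)
            have d3 : 0 ≤ (P.cN j a : ℝ) * y a := by
              rcases d2 with d | d
              · exact mul_nonneg (Nat.cast_nonneg _) (hp a d)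
              · simp [d]
            simp only [d1, sub_mul]
            by_cases e : a = i
            · subst e; simpa using d3
            · simpa [e, Bool.eq_false_iff.2 (mt Nat.eq_of_beq_eq_true e)] using d3
        _ = y i := by simp [hi]
  · by_contra hn
    refine hno y hy (fun j _ hb => by simp at hb) fun j hj hb => ?_
    rw [Nat.testBit_two_pow, decide_eq_true_eq] at hb
    subst hb
    refine (hy.1 _ hj).lt_of_ne fun e => hn (sum_nonneg fun i hi => ?_)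
    by_cases c : i < P.np
    · have e' : ∑ a ∈ range P.nv, (P.cP μ a : ℝ) * y a = 0 := by
        rw [e]
        exact sum_congr rfl fun a ha => by simp [(a2 a (mem_range.1 ha)).2]
      have := (sum_eq_zero_iff_of_nonneg fun a ha => mul_nonneg (Nat.cast_nonneg _)
        (hy.2.1 a (mem_range.1 ha))).1 e' i hi
      rw [(a2 i (mem_range.1 hi)).1, Nat.blt_eq.mpr c] at this
      simp only [cond_true, Nat.cast_one, one_mul] at this
      rw [this, mul_zero]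
    · exact mul_nonneg (h2 i (not_lt.1 c)) (hy.2.1 i (mem_range.1 hi))

variable {n k : ℕ}

/-- enumeration of the points -/
def pt (n i : ℕ) : Pt n := fun a => ((i / 3 ^ (a : ℕ) : ℕ) : ZMod 3)

/-- the index of a point -/
def ix (x : Pt n) : ℕ := ∑ a, (x a).val * 3 ^ (a : ℕ)

/-- coordinates -/
noncomputable def gl (p : ℕ) (a : Pt n → ℝ) (b : Fin k → ℝ) (i : ℕ) : ℝ :=
  if i < p then a (pt n i) else if h : i - p < k then b ⟨i - p, h⟩ else 0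

theorem ip_gl {P : Pb} (h : P.nv = P.np + k) (f : ℕ → ℝ) (a : Pt n → ℝ) (b : Fin k → ℝ) :
    P.ip f (gl P.np a b) =
      ∑ i ∈ range P.np, f i * a (pt n i) + ∑ i : Fin k, f (P.np + i) * b i := by
  rw [Pb.ip, h, sum_range_add, sum_range (n := k)]
  congr 1
  · exact sum_congr rfl fun i hi => by rw [gl, if_pos (mem_range.1 hi)]
  · exact sum_congr rfl fun i _ => by simp [gl]

/-- the number of planes through two points -/
def cnt (L : List (Vec n)) (y x : Pt n) : ℕ :=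
  (L.map fun l => if rv l ⬝ᵥ x = rv l ⬝ᵥ y then 1 else 0).sum

theorem list_plane {Z : W n} (hZ : Mov Z) (y : Pt n) (L : List (Vec n)) (hL : ∀ l ∈ L, rv l ≠ 0) :
    ∑ x, (cnt L y x : ℝ) * Z.2 x ≤ pairL Z.1 (L.map rk).sum := by
  induction L with
  | nil => simp [cnt]
  | cons l L ih =>
    have := hZ.plane l (hL l List.mem_cons_self) (rv l ⬝ᵥ y)
    rw [planeSum, sum_filter] at this
    simp only [cnt, List.map_cons, List.sum_cons, Nat.cast_add, add_mul, sum_add_distrib, map_add,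
      Nat.cast_ite, Nat.cast_one, Nat.cast_zero, ite_mul, one_mul, zero_mul]
    exact add_le_add this (ih fun m hm => hL m (List.mem_cons_of_mem _ hm))

theorem list_rk (L : List (Vec n)) (a b : Fin n) :
    (L.map rk).sum a b = io (L.map fun l => star (l a) * l b).sum := by
  induction L with
  | nil => simp
  | cons l L ih => simp only [List.map_cons, List.sum_cons, Matrix.add_apply, map_add, ih, rk]

theorem starH_of {V : Fin k → Vec n} {P : Pb} (h : P.wf = true) {μ : ℕ} (ha : P.aux μ = true)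
    (hno : P.NoSt 0 (2 ^ μ)) (hv : P.nv = P.np + k)
    (h1 : ∀ x : Pt n, ix x < P.np ∧ pt n (ix x) = x) (h2 : ∀ i < P.np, ix (pt n i) = i)
    (U : ℕ → Vec n) (X : ℕ → Pt n)
    (hg : ∀ g < P.ng, (∀ i < P.np, P.gen g i = 0) ∨ (rv (U g) ≠ 0 ∧
      (∀ i : Fin k, (P.gen g (P.np + i) : ℤ) = nm (V i ⬝ᵥ U g)) ∧
      ∀ i < P.np, P.gen g i = (if pt n i = X g then 1 else 0) +
        (if pt n i = X g + rv (U g) then 1 else 0) + if pt n i = X g - rv (U g) then 1 else 0))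
    (s : ℕ → ℕ) (L : ℕ → List (Vec n)) (Y : ℕ → Pt n)
    (hc : ∀ j < P.nJ, 0 < s j ∧ (∀ l ∈ L j, rv l ≠ 0) ∧
      (∀ a b, ∑ i : Fin k, ((s j : ℤ) * (P.cP j (P.np + i) - P.cN j (P.np + i))) •
        (star (V i a) * V i b) = ((L j).map fun l => star (l a) * l b).sum) ∧
      ∀ i < P.np, s j * P.cN j i ≤ s j * P.cP j i + cnt (L j) (Y j) (pt n i)) : StarH V := by
  intro c t Z hc0 hP hZ
  have hs : ∀ F : Pt n → ℝ, ∑ i ∈ range P.np, F (pt n i) = ∑ x, F x := fun F =>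
    sum_nbij' (pt n) ix (fun _ _ => mem_univ _) (fun x _ => mem_range.2 (h1 x).1)
      (fun i hi => h2 i (mem_range.1 hi)) (fun x _ => (h1 x).2) fun _ _ => rfl
  have key := Pb.main2 h ha hno (ψ := gl P.np (fun x => -t x) c)
    (z := gl P.np Z.2 fun i => ev Z.1 (V i)) ⟨fun i hi => ?_, fun g hg' => ?_⟩ (fun i hi => ?_)
    fun j hj => ?_
  · rw [ip_gl hv, sum_congr rfl fun i hi => by rw [gl, if_pos (mem_range.1 hi)],
      hs fun x => -t x * Z.2 x] at key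
    simp only [neg_mul, sum_neg_distrib, gl, Nat.not_lt.2 (Nat.le_add_right _ _), if_false,
      Nat.add_sub_cancel_left, Fin.is_lt, dite_true] at key
    linarith
  · rw [gl, if_pos hi, neg_nonpos]; exact hP.nonneg _
  · rw [ip_gl hv]
    rcases hg g hg' with e | ⟨e1, e2, e3⟩
    · rw [sum_eq_zero fun i hi => by simp [e i (mem_range.1 hi)], zero_add]
      exact sum_nonneg fun i _ => mul_nonneg (Nat.cast_nonneg _) (hc0 i)
    · have := hP.line _ e1 (X g)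
      simp only [ev_sum, ev_smul, ev_rk, lineSum, ← e2, Int.cast_natCast] at this
      rw [sum_congr rfl fun i hi => by rw [e3 i (mem_range.1 hi)], hs fun x =>
        (((if x = X g then 1 else 0) + (if x = X g + rv (U g) then 1 else 0) +
          if x = X g - rv (U g) then 1 else 0 : ℕ) : ℝ) * -t x]
      simp only [Nat.cast_add, Nat.cast_ite, Nat.cast_one, Nat.cast_zero, add_mul, ite_mul, one_mul,
        zero_mul, sum_add_distrib, sum_ite_eq', mem_univ, if_true, mul_comm _ (c _)]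
      linarith
  · rw [gl, if_neg hi.not_gt]
    split_ifs
    exacts [hc0 _, le_rfl]
  · obtain ⟨e1, e2, e3, e4⟩ := hc j hj
    have k1 := list_plane hZ (Y j) (L j) e2
    have k2 : ((L j).map rk).sum =
        ∑ i : Fin k, ((s j : ℝ) * (P.cP j (P.np + i) - P.cN j (P.np + i))) • rk (V i) := by
      funext a b
      rw [list_rk, ← e3, map_sum, Matrix.sum_apply]
      refine sum_congr rfl fun i _ => ?_
      rw [map_zsmul, Matrix.smul_apply, ← Int.cast_smul_eq_zsmul ℝ]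
      simp [rk]
    rw [k2, pairL_apply, pair_sum_rk, ← hs fun x => (cnt (L j) (Y j) x : ℝ) * Z.2 x] at k1
    refine nonneg_of_mul_nonneg_right ?_ (Nat.cast_pos.2 e1 : (0 : ℝ) < s j)
    rw [Pb.con, ip_gl hv, mul_add, mul_sum, mul_sum]
    simp only [← mul_assoc]
    refine le_trans ?_ (add_le_add_right k1 _)
    rw [← sum_add_distrib]
    refine sum_nonneg fun i hi => ?_
    have k3 := (Nat.cast_le (α := ℝ)).2 (e4 i (mem_range.1 hi))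
    push_cast at k3
    rw [← add_mul]
    exact mul_nonneg (by linarith) (hZ.nonneg _)

theorem no12 : P12.NoSt 0 (2 ^ 75) := by
  have h0 : ∀ r < 0, P12.NoSt (stE (S12.get r)) (stN (S12.get r)) := fun _ h => absurd h (Nat.not_lt_zero _)
  have h1 := Pb.chkL_sound wf12 sy12 t12_0 h0
  have h2 := Pb.chkL_sound wf12 sy12 t12_31 h1
  have h3 := Pb.chkL_sound wf12 sy12 t12_55 h2
  have h4 := Pb.chkL_sound wf12 sy12 t12_75 h3
  have h5 := Pb.chkL_sound wf12 sy12 t12_99 h4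
  have h6 := Pb.chkL_sound wf12 sy12 t12_118 h5
  have h7 := Pb.chkL_sound wf12 sy12 t12_128 h6
  have h8 := Pb.chkL_sound wf12 sy12 t12_136 h7
  have h9 := Pb.chkL_sound wf12 sy12 t12_157 h8
  have h10 := Pb.chkL_sound wf12 sy12 t12_169 h9
  have h11 := Pb.chkL_sound wf12 sy12 t12_182 h10
  have h12 := Pb.chkL_sound wf12 sy12 t12_200 h11
  have h13 := Pb.chkL_sound wf12 sy12 t12_216 h12
  have h14 := Pb.chkL_sound wf12 sy12 t12_236 h13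
  have h15 := Pb.chkL_sound wf12 sy12 t12_239 h14
  have h16 := Pb.chkL_sound wf12 sy12 t12_252 h15
  have h17 := Pb.chkL_sound wf12 sy12 t12_265 h16
  have h18 := Pb.chkL_sound wf12 sy12 t12_284 h17
  have h19 := Pb.chkL_sound wf12 sy12 t12_294 h18
  have h20 := Pb.chkL_sound wf12 sy12 t12_306 h19
  have e : stE (S12.get 317) = 0 ∧ stN (S12.get 317) = 2 ^ 75 := by decide +kernel
  rw [← e.1, ← e.2]
  exact h20 _ (Nat.lt_succ_self _)

/-- directions of elliptic curves -/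
def U4 : List (Vec 2) :=
  [![⟨0, 0⟩, ⟨0, 1⟩],
   ![⟨0, 1⟩, ⟨0, 0⟩],
   ![⟨1, 0⟩, ⟨0, 1⟩],
   ![⟨0, -1⟩, ⟨1, 0⟩]]

theorem starH4 : StarH V4 :=
  starH_of wf4 (by decide +kernel) no4 rfl (by decide +kernel) (by decide +kernel)
    (fun g => U4.getD (g / 3) 0)
    (fun g => pt 2 (Pb.fb 0x20100020100060300020100 g))
    (by decide +kernel) (fun _ => 1)
    (fun j => if h : 9 ≤ j ∧ j < 21 then [V4 ⟨(j - 9) / 3, by omega⟩] else [])
    (fun j => pt 2 (Pb.fb 0x20100020100060300020100000000000000000000 j))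
    (by decide +kernel)

/-- directions of elliptic curves -/
def U9 : List (Vec 3) :=
  [![⟨0, 0⟩, ⟨0, 0⟩, ⟨0, 1⟩],
   ![⟨0, 0⟩, ⟨0, 1⟩, ⟨0, 0⟩],
   ![⟨0, 0⟩, ⟨0, 1⟩, ⟨1, 0⟩],
   ![⟨0, 0⟩, ⟨-1, 0⟩, ⟨1, 0⟩],
   ![⟨0, 1⟩, ⟨0, 0⟩, ⟨0, 0⟩],
   ![⟨0, 1⟩, ⟨0, 0⟩, ⟨1, 0⟩],
   ![⟨0, 1⟩, ⟨1, 0⟩, ⟨0, 0⟩],
   ![⟨0, 1⟩, ⟨1, 0⟩, ⟨0, 1⟩],
   ![⟨-1, -1⟩, ⟨0, 1⟩, ⟨1, 0⟩],
   ![⟨0, 1⟩, ⟨1, 0⟩, ⟨1, 0⟩],
   ![⟨1, 0⟩, ⟨0, 1⟩, ⟨0, -2⟩],
   ![⟨-1, -1⟩, ⟨1, 0⟩, ⟨0, 1⟩],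
   ![⟨1, 0⟩, ⟨0, 1⟩, ⟨1, 0⟩],
   ![⟨0, 1⟩, ⟨0, 1⟩, ⟨1, 0⟩],
   ![⟨0, 1⟩, ⟨0, -2⟩, ⟨0, 1⟩],
   ![⟨-2, 0⟩, ⟨1, 0⟩, ⟨0, 1⟩],
   ![⟨0, 1⟩, ⟨0, -1⟩, ⟨0, 1⟩],
   ![⟨-1, 0⟩, ⟨0, 0⟩, ⟨0, 1⟩],
   ![⟨-1, 0⟩, ⟨1, 0⟩, ⟨0, 0⟩],
   ![⟨-1, 0⟩, ⟨1, 0⟩, ⟨0, 1⟩],
   ![⟨1, 0⟩, ⟨0, 1⟩, ⟨0, -1⟩]]

/-- the second shell -/
def L9 : List (Vec 3) :=
  [![⟨-1, 1⟩, ⟨0, 1⟩, ⟨1, 1⟩],
   ![⟨-1, 0⟩, ⟨-1, 1⟩, ⟨0, 1⟩],
   ![⟨0, 1⟩, ⟨0, 1⟩, ⟨0, 1⟩],
   ![⟨0, 1⟩, ⟨0, 1⟩, ⟨1, 0⟩],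
   ![⟨-1, 0⟩, ⟨0, 1⟩, ⟨1, 2⟩],
   ![⟨-1, 0⟩, ⟨0, 1⟩, ⟨0, 0⟩],
   ![⟨0, -1⟩, ⟨1, 0⟩, ⟨0, 0⟩],
   ![⟨-1, 0⟩, ⟨0, 0⟩, ⟨0, 1⟩],
   ![⟨-1, 0⟩, ⟨0, 0⟩, ⟨1, 0⟩],
   ![⟨0, 1⟩, ⟨1, 0⟩, ⟨1, 0⟩],
   ![⟨0, 0⟩, ⟨-1, 0⟩, ⟨0, 1⟩],
   ![⟨0, 0⟩, ⟨0, -1⟩, ⟨1, 0⟩]]

theorem starH9 : StarH V9 :=
  starH_of wf9 (by decide +kernel) no9 rfl (by decide +kernel) (by decide +kernel)
    (fun g => U9.getD (g / 9) 0)
    (fun g => pt 3 (Pb.fb 0x807060504030201000807060504030201001413120b0a090201000807060504030201000807060504030201000807060504030201000807060504030201000807060504030201000807060504030201000807060504030201000807060504030201000807060504030201000807060504030201000807060504030201001413120b0a090201000807060504030201001815120f0c090603000807060504030201000807060504030201001413120b0a09020100080706050403020100 g))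
    (by decide +kernel) (fun j => if 54 ≤ j ∧ j < 63 then 2 else 1)
    (fun j => if h : 27 ≤ j ∧ j < 54 then [V9 ⟨(j - 27) / 3, by omega⟩] else
      if 54 ≤ j ∧ j < 63 then L9 else [])
    (fun j => pt 3 (Pb.fb 0x80706050403020100020100020100060300120900010200020100020100060300020100000000000000000000000000000000000000000000000000000000 j))
    (by decide +kernel)

/-- directions of elliptic curves -/
def U12 : List (Vec 3) :=
  [![⟨0, 0⟩, ⟨0, 0⟩, ⟨0, 1⟩],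
   ![⟨0, 0⟩, ⟨0, 1⟩, ⟨0, 0⟩],
   ![⟨0, 0⟩, ⟨1, 0⟩, ⟨0, 1⟩],
   ![⟨0, 0⟩, ⟨0, 1⟩, ⟨0, 1⟩],
   ![⟨1, 2⟩, ⟨1, 0⟩, ⟨1, 0⟩],
   ![⟨0, 0⟩, ⟨0, -1⟩, ⟨1, 0⟩],
   ![⟨0, 1⟩, ⟨0, 0⟩, ⟨0, 0⟩],
   ![⟨0, 1⟩, ⟨0, 0⟩, ⟨1, 0⟩],
   ![⟨0, 1⟩, ⟨0, 1⟩, ⟨0, 0⟩],
   ![⟨0, 1⟩, ⟨1, 0⟩, ⟨0, 0⟩],
   ![⟨0, 1⟩, ⟨1, 0⟩, ⟨2, 1⟩],
   ![⟨0, 1⟩, ⟨1, 0⟩, ⟨1, 0⟩],
   ![⟨1, 0⟩, ⟨0, -1⟩, ⟨1, 0⟩],
   ![⟨0, 1⟩, ⟨0, -1⟩, ⟨1, 0⟩],
   ![⟨0, 1⟩, ⟨1, 1⟩, ⟨1, 0⟩],
   ![⟨-1, 0⟩, ⟨0, 0⟩, ⟨0, 1⟩],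
   ![⟨-1, 0⟩, ⟨0, 0⟩, ⟨1, 0⟩],
   ![⟨-1, 0⟩, ⟨1, 2⟩, ⟨0, 1⟩],
   ![⟨-1, 0⟩, ⟨0, 1⟩, ⟨0, 0⟩],
   ![⟨-1, 0⟩, ⟨0, 1⟩, ⟨0, 1⟩],
   ![⟨0, 1⟩, ⟨1, 0⟩, ⟨1, 1⟩]]

theorem starH12 : StarH V12 :=
  starH_of wf12 (by decide +kernel) no12 rfl (by decide +kernel) (by decide +kernel)
    (fun g => U12.getD (g / 9) 0)
    (fun g => pt 3 (Pb.fb 0x807060504030201000807060504030201001413120b0a090201000807060504030201000807060504030201000807060504030201000807060504030201000807060504030201000807060504030201000807060504030201001413120b0a090201001413120b0a090201001413120b0a090201000807060504030201001815120f0c090603000807060504030201000807060504030201000807060504030201000807060504030201001413120b0a09020100080706050403020100 g))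
    (by decide +kernel) (fun _ => 1)
    (fun j => if h : 27 ≤ j ∧ j < 63 then [V12 ⟨(j - 27) / 3, by omega⟩] else [])
    (fun j => pt 3 (Pb.fb 0x20100020100060300020100020100120900020100020100060300060300010200020100000000000000000000000000000000000000000000000000000000 j))
    (by decide +kernel)

/-- nef against movable, rank three -/
theorem star3 {D Z : W 3} (hD : Pell D) (hZ : Mov Z) : 0 ≤ inter D Z := star_all starH9 starH12 hD hZ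

/-- The lattice side of the cone theorem, with no hypothesis left. -/
theorem cone_main {N : Type*} [AddCommGroup N] [Module ℝ N] {L : AddSubgroup N}
    {Cv : Set (N →ₗ[ℝ] ℝ)} {Ef : Set N} {G : Subgroup (N ≃ₗ[ℝ] N)} {Φ : N →ₗ[ℝ] W 3}
    (h : Iface L Cv Ef G Φ) : Concl L ({D | ∀ c ∈ Cv, 0 ≤ c D} ∩ cone Ef) G :=
  cone_of_starH h starH9 starH12 starH4

end Pool.Agent.MP_20d318_ag.H50
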